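import Mathlib

/-!
# The second derived set of a subset of a T0 space is closed

This answers Q1 of MP_091ced_gt (Lelek 1981) in the negative: no `T0` space has a subset
whose second derived set is not closed.
-/

namespace Pool.Agent.Results.MP_091ced_gt.SecondDerivedClosed

universe u

/-- The derived set `A^d = { x : x ∈ closure (A \ {x}) }` of a subset `A` of a space. -/
def derived {X : Type u} [TopologicalSpace X] (A : Set X) : Set X :=
  {x | x ∈ closure (A \ {x})}

theorem not_mem_derived {X : Type u} [TopologicalSpace X] {A : Set X} {x : X}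
    (h : x ∉ derived A) : ∃ U : Set X, IsOpen U ∧ x ∈ U ∧ ∀ a ∈ U, a ∈ A → a = x := by
  have h' : x ∉ closure (A \ {x}) := h
  rw [mem_closure_iff] at h'
  push Not at h'
  obtain ⟨U, hU, hxU, hne⟩ := h'
  refine ⟨U, hU, hxU, fun a ha haA => ?_⟩
  by_contra hax
  have : a ∈ U ∩ (A \ {x}) := ⟨ha, haA, hax⟩
  rw [hne] at this
  exact this

theorem mem_derived_elim {X : Type u} [TopologicalSpace X] {A : Set X} {x : X}
    (h : x ∈ derived A) {V : Set X} (hV : IsOpen V) (hxV : x ∈ V) :
    ∃ a ∈ V, a ∈ A ∧ a ≠ x := by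
  have h' : x ∈ closure (A \ {x}) := h
  rw [mem_closure_iff] at h'
  obtain ⟨a, haV, haA, hax⟩ := h' V hV hxV
  exact ⟨a, haV, haA, hax⟩

/-- For every `T0` space `X` and every `A ⊆ X`, the second derived set `(A^d)^d` is closed. -/
theorem result : ∀ (X : Type u) [TopologicalSpace X] [T0Space X] (A : Set X),
    IsClosed (derived (derived A)) := by
  intro X _ _ A
  rw [← closure_subset_iff_isClosed]
  intro y hy
  by_contra hyn
  obtain ⟨U, hU, hyU, hUB⟩ := not_mem_derived hyn
  rw [mem_closure_iff] at hy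
  obtain ⟨z, hzU, hz⟩ := hy U hU hyU
  have hzy : z ≠ y := by
    rintro rfl
    exact hyn hz
  -- every neighbourhood of `z` contains `y`, and `y ∈ derived A`
  have h1 : ∀ V : Set X, IsOpen V → z ∈ V → y ∈ V ∧ y ∈ derived A := by
    intro V hV hzV
    obtain ⟨b, hb, hbB, hbz⟩ := mem_derived_elim hz (hV.inter hU) ⟨hzV, hzU⟩
    have : b = y := hUB b hb.2 hbB
    subst this
    exact ⟨hb.1, hbB⟩
  have hyB : y ∈ derived A := (h1 U hU hzU).2
  have hzB : z ∉ derived A := fun h => hzy (hUB z hzU h)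
  obtain ⟨W, hW, hzW, hWA⟩ := not_mem_derived hzB
  have hyW : y ∈ W := (h1 W hW hzW).1
  -- every neighbourhood of `y` contains `z`
  have h2 : ∀ V : Set X, IsOpen V → y ∈ V → z ∈ V := by
    intro V hV hyV
    obtain ⟨a, ha, haA, _⟩ := mem_derived_elim hyB (hV.inter hW) ⟨hyV, hyW⟩
    have : a = z := hWA a ha.2 haA
    subst this
    exact ha.1
  apply hzy
  apply Inseparable.eq
  rw [inseparable_iff_forall_isOpen]
  intro V hV
  exact ⟨fun h => (h1 V hV h).1, fun h => h2 V hV h⟩

end Pool.Agent.Results.MP_091ced_gt.SecondDerivedClosed
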